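import Pool.Agent.N437.SPC.Stm3
import Pool.Agent.H112R2.FinalGap

/-!
# DETG: the deterministic step with proper progressions
-/

set_option autoImplicit false

namespace Pool.Agent.N690.SPC

open Finset Pool.Agent.N437.SPC
open scoped Pointwise

/-- the bounds for the constants -/
lemma const_bound {K Q T0 : ℝ} {k : ℕ} (hQ : 1 ≤ Q)
    (hk : (k : ℝ) ≤ 300 * Real.log (2 * (2 * Q ^ 3)))
    (hT0 : T0 ≤ (2 * (2 * Q ^ 3)) ^ (17000 * (1 + Real.log (1 + Real.log (2 * (2 * Q ^ 3)))))) :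
    (k : ℝ) ≤ 160000 * Real.log (2 * Q) ∧
      4 * K ^ 2 * T0 * 9 ^ k ≤ mb 160000 K Q := by
  set x := Real.log (2 * Q) with hx
  have hQ0 : 0 < Q := by linarith
  have hx2 : Real.log 2 ≤ x := Real.log_le_log (by norm_num) (by linarith)
  have hx0 : 0.69 < x := lt_of_lt_of_le (by have := Real.log_two_gt_d9; linarith) hx2
  have hlog : Real.log (2 * (2 * Q ^ 3)) ≤ 3 * x := by
    have e1 : 3 * x = Real.log ((2 * Q) ^ 3) := by rw [Real.log_pow]; push_cast; rfl
    rw [e1]
    apply Real.log_le_log (by positivity)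
    have : 0 < Q ^ 3 := by positivity
    nlinarith
  have hlog0 : 0 ≤ Real.log (2 * (2 * Q ^ 3)) := by
    apply Real.log_nonneg
    have : 1 ≤ Q ^ 3 := one_le_pow₀ hQ
    linarith
  set l := 1 + Real.log (1 + x) with hl
  have hlx : 0 ≤ Real.log (1 + x) := Real.log_nonneg (by linarith)
  have hl1 : 1 ≤ l := by linarith
  have hk' : (k : ℝ) ≤ 900 * x := by linarith
  refine ⟨by linarith, ?_⟩
  have hl3 : 1 + Real.log (1 + Real.log (2 * (2 * Q ^ 3))) ≤ 3 * l := by
    have h1 : Real.log (1 + Real.log (2 * (2 * Q ^ 3))) ≤ Real.log (3 * (1 + x)) := by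
      apply Real.log_le_log (by linarith)
      linarith
    rw [Real.log_mul (show (3 : ℝ) ≠ 0 by norm_num) (show 1 + x ≠ 0 by linarith)] at h1
    have h2 : Real.log 3 ≤ 2 := by
      have := Real.log_le_sub_one_of_pos (show (0 : ℝ) < 3 by norm_num)
      linarith
    linarith
  have hT1 : T0 ≤ Real.exp (153000 * (x * l)) := by
    refine hT0.trans ?_
    rw [Real.rpow_def_of_pos (by positivity)]
    apply Real.exp_le_exp.2
    have h0 : 0 ≤ 1 + Real.log (1 + Real.log (2 * (2 * Q ^ 3))) := by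
      have := Real.log_nonneg (show (1 : ℝ) ≤ 1 + Real.log (2 * (2 * Q ^ 3)) by linarith)
      linarith
    calc Real.log (2 * (2 * Q ^ 3)) *
          (17000 * (1 + Real.log (1 + Real.log (2 * (2 * Q ^ 3))))) ≤
          (3 * x) * (17000 * (3 * l)) := by gcongr
      _ = 153000 * (x * l) := by ring
  have h4 : (4 : ℝ) ≤ Real.exp (2 * (x * l)) := by
    have h5 : (4 : ℝ) = Real.exp (2 * Real.log 2) := by
      rw [mul_comm, Real.exp_mul, Real.exp_log (by norm_num)]
      norm_num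
    rw [h5]
    apply Real.exp_le_exp.2
    have : x ≤ x * l := by nlinarith
    linarith
  have h9 : (9 : ℝ) ^ k ≤ Real.exp (2700 * (x * l)) := by
    have h5 : (9 : ℝ) ≤ Real.exp 3 := by
      have e : Real.exp 3 = Real.exp 1 ^ 3 := by rw [← Real.exp_nat_mul]; norm_num
      rw [e]
      have := Real.exp_one_gt_d9
      have h6 : (2.5 : ℝ) ^ 3 ≤ Real.exp 1 ^ 3 := by gcongr; linarith
      norm_num at h6
      linarith
    calc (9 : ℝ) ^ k ≤ Real.exp 3 ^ k := by gcongr
      _ = Real.exp (k * 3) := by rw [← Real.exp_nat_mul]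
      _ ≤ Real.exp (2700 * (x * l)) := by
          apply Real.exp_le_exp.2
          have : x ≤ x * l := by nlinarith
          linarith
  have hmb : mb 160000 K Q = K ^ 2 * Real.exp (x * (160000 * l)) := by
    rw [mb, Real.rpow_def_of_pos (by positivity)]
  rw [hmb]
  have hxl : 0 ≤ x * l := by positivity
  calc 4 * K ^ 2 * T0 * 9 ^ k ≤ Real.exp (2 * (x * l)) * K ^ 2 * Real.exp (153000 * (x * l)) *
        Real.exp (2700 * (x * l)) := by
        by_cases hT : 0 ≤ T0
        · gcongr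
        · have h1 : 4 * K ^ 2 * T0 * 9 ^ k ≤ 0 := by
            have : 4 * K ^ 2 * T0 ≤ 0 :=
              mul_nonpos_of_nonneg_of_nonpos (by positivity) (not_le.1 hT).le
            exact mul_nonpos_of_nonpos_of_nonneg this (by positivity)
          exact h1.trans (by positivity)
    _ = K ^ 2 * Real.exp (2 * (x * l) + 153000 * (x * l) + 2700 * (x * l)) := by
        rw [Real.exp_add, Real.exp_add]; ring
    _ ≤ K ^ 2 * Real.exp (x * (160000 * l)) := by
        gcongr
        nlinarith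

theorem t_DETG (h : S_SHRB) : S_DETG := by
  refine ⟨160000, by norm_num, ?_⟩
  intro Γ _ _ htf A G n K Q hn hA hQ hQK hAA hAG hGG hGn
  have hn' : (0 : ℝ) < n := by exact_mod_cast hn
  have hK1 : 1 ≤ K := hQ.trans hQK
  have hAGpos : 0 < (A ∩ G).card := by omega
  have hAGne : (A ∩ G).Nonempty := card_pos.1 hAGpos
  have hGne : G.Nonempty := hAGne.mono inter_subset_right
  obtain ⟨k, v, L, T0, hk, hprop, hvol, hT0, hcov⟩ := H112.near_pfr_gap htf hGne hGG
  -- pigeonhole
  classical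
  obtain ⟨t, ht, hpig⟩ := H112.cover_pigeonhole (T := T0) hAGne
    (fun t a => ∃ c : Fin k → ℤ, (∀ i, |c i| ≤ L i) ∧ a = t + ∑ i, c i • v i)
    (fun a ha => hcov a (mem_inter.1 ha).2)
  set A1 := (A ∩ G).filter (fun a => ∃ c : Fin k → ℤ, (∀ i, |c i| ≤ L i) ∧
    a = t + ∑ i, c i • v i) with hA1
  have hA1pos : 0 < A1.card := by
    by_contra h0
    have h1 : A1.card = 0 := by omega
    rw [h1, mul_zero] at hpig
    omega
  have hA1ne : A1.Nonempty := card_pos.1 hA1pos
  have hA1A : A1 ⊆ A := (filter_subset _ _).trans inter_subset_left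
  have hA1n : (n : ℝ) ≤ 2 * T0.card * A1.card := by
    have h1 : n ≤ 2 * (T0.card * A1.card) := hAG.trans (Nat.mul_le_mul_left 2 hpig)
    have h2 : (n : ℝ) ≤ ((2 * (T0.card * A1.card) : ℕ) : ℝ) := by exact_mod_cast h1
    push_cast at h2
    linarith
  -- Ruzsa covering
  obtain ⟨S0, -, hS0, hcovA⟩ := ruzsa_covering_add (K := 2 * K * T0.card) (A := A) hA1ne (by
    have h1 : ((A + A1).card : ℝ) ≤ (A + A).card := by
      exact_mod_cast card_le_card (add_subset_add_left hA1A)
    calc ((A + A1).card : ℝ) ≤ K * n := h1.trans hAA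
      _ ≤ K * (2 * T0.card * A1.card) := by gcongr
      _ = _ := by ring)
  -- shrinking
  obtain ⟨L', hL', hvol', S, hScov, hScard⟩ := h k L n hn
  have hS : (S.card : ℝ) ≤ 2 * K * 9 ^ k := by
    have h1 : ((∏ i, (2 * L i + 1) : ℕ) : ℝ) ≤ 2 * K * n := by
      have : ((∏ i, (2 * L i + 1) : ℕ) : ℝ) ≤ G.card := by exact_mod_cast hvol
      exact this.trans hGn
    have h2 : ((max (∏ i, (2 * L i + 1)) n : ℕ) : ℝ) ≤ 2 * K * n := by
      rw [Nat.cast_max]
      apply max_le h1
      nlinarith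
    have h3 : ((S.card * n : ℕ) : ℝ) ≤ ((9 ^ k * max (∏ i, (2 * L i + 1)) n : ℕ) : ℝ) := by
      exact_mod_cast hScard
    rw [Nat.cast_mul, Nat.cast_mul, Nat.cast_pow] at h3
    have h4 : (S.card : ℝ) * n ≤ (2 * K * 9 ^ k) * n := by
      calc (S.card : ℝ) * n ≤ ((9 : ℕ) : ℝ) ^ k * ((max (∏ i, (2 * L i + 1)) n : ℕ) : ℝ) := h3
        _ ≤ ((9 : ℕ) : ℝ) ^ k * (2 * K * n) := by gcongr
        _ = _ := by push_cast; ring
    exact le_of_mul_le_mul_right h4 hn'
  obtain ⟨hk1, hT1⟩ := const_bound (K := K) hQ hk hT0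
  refine ⟨k, v, L', S0 + S.image (fun s => ∑ i, s i • v i), hk1, ?_, ?_, ?_, ?_⟩
  · intro a b ha hb hab
    exact hprop a b (fun i => (ha i).trans (by exact_mod_cast hL' i))
      (fun i => (hb i).trans (by exact_mod_cast hL' i)) hab
  · rw [hA]; exact hvol'
  · have h1 : ((S0 + S.image (fun s => ∑ i, s i • v i)).card : ℝ) ≤ S0.card * S.card := by
      have h2 := card_add_le (s := S0) (t := S.image (fun s => ∑ i, s i • v i))
      have h3 : (S.image (fun s => ∑ i, s i • v i)).card ≤ S.card := card_image_le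
      have h4 := h2.trans (Nat.mul_le_mul_left _ h3)
      exact_mod_cast h4
    refine h1.trans ?_
    calc (S0.card : ℝ) * S.card ≤ (2 * K * T0.card) * (2 * K * 9 ^ k) := by gcongr
      _ = 4 * K ^ 2 * T0.card * 9 ^ k := by ring
      _ ≤ _ := hT1
  · intro a ha
    obtain ⟨s0, hs0, w, hw, rfl⟩ := mem_add.1 (hcovA ha)
    obtain ⟨a1, ha1, a2, ha2, rfl⟩ := mem_sub.1 hw
    obtain ⟨c1, hc1, e1⟩ := (mem_filter.1 ha1).2
    obtain ⟨c2, hc2, e2⟩ := (mem_filter.1 ha2).2
    obtain ⟨s, hs, y, hy, hsy⟩ := hScov (c1 - c2) (fun i => by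
      have h1 := abs_le.1 (hc1 i)
      have h2 := abs_le.1 (hc2 i)
      rw [Pi.sub_apply, abs_le]
      constructor <;> linarith [h1.1, h1.2, h2.1, h2.2])
    refine ⟨s0 + ∑ i, s i • v i, add_mem_add hs0 (mem_image_of_mem _ hs), y, hy, ?_⟩
    have e3 : a1 - a2 = ∑ i, s i • v i + ∑ i, y i • v i := by
      rw [e1, e2, add_sub_add_left_eq_sub, ← sum_sub_distrib, ← sum_add_distrib]
      refine sum_congr rfl fun i _ => ?_
      rw [← sub_smul, ← add_smul]
      have := congrFun hsy i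
      rw [Pi.sub_apply, Pi.add_apply] at this
      rw [this]
    rw [e3]
    abel

end Pool.Agent.N690.SPC
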